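import Mathlib
import Pool.Agent.IPP.Quant

set_option autoImplicit false

namespace Pool.Agent.Results.MP_21b6c8_co.SharpOrder

/-- the descendants of a set `X` of words of length `ℓ` over the alphabet `F` -/
def Desc {F : Type} {ℓ : ℕ} (X : Finset (Fin ℓ → F)) : Set (Fin ℓ → F) :=
  {d | ∀ i, ∃ x ∈ X, x i = d i}

/-- `X` is a parent set of the word `d` in the code `C` -/
def IsParent {F : Type} {ℓ : ℕ} (C : Finset (Fin ℓ → F)) (k : ℕ) (d : Fin ℓ → F)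
    (X : Finset (Fin ℓ → F)) : Prop :=
  X ⊆ C ∧ 1 ≤ X.card ∧ X.card ≤ k ∧ d ∈ Desc X

/-- the code `C` has the `k`-identifiable parent property -/
def IsIPP {F : Type} {ℓ : ℕ} (k : ℕ) (C : Finset (Fin ℓ → F)) : Prop :=
  ∀ d : Fin ℓ → F, (∃ X, IsParent C k d X) → ∃ c, ∀ X, IsParent C k d X → c ∈ X

/-- the number `⌈ℓ/(u-1)⌉`, `u = ⌊(k+2)^2/4⌋` -/
noncomputable def expo (ℓ k : ℕ) : ℝ :=
  ((⌈(ℓ : ℝ) / ((⌊((k : ℝ) + 2) ^ 2 / 4⌋₊ : ℝ) - 1)⌉ : ℤ) : ℝ)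

private lemma floor_eq (k : ℕ) : ⌊((k : ℝ) + 2) ^ 2 / 4⌋₊ = (k + 2) ^ 2 / 4 := by
  have h := Nat.floor_div_eq_div (K := ℝ) ((k + 2) ^ 2) 4
  push_cast at h
  exact h

private lemma expo_eq (ℓ k : ℕ) (hℓ : 1 ≤ ℓ) (hk : 1 ≤ k) :
    expo ℓ k = (((ℓ - 1) / ((k + 2) ^ 2 / 4 - 1) + 1 : ℕ) : ℝ) := by
  have hu2 : 2 ≤ (k + 2) ^ 2 / 4 := by
    rw [Nat.le_div_iff_mul_le (by norm_num)]
    nlinarith
  rw [expo, floor_eq, Pool.Agent.IPP.ceil_eq ℓ _ hℓ hu2]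
  norm_cast

theorem result : ∀ ℓ k : ℕ, 1 ≤ ℓ → 1 ≤ k →
    (∃ K : ℝ, 0 < K ∧ ∀ (F : Type) [Fintype F] [Nonempty F],
      ∃ C : Finset (Fin ℓ → F), IsIPP k C ∧
        (Fintype.card F : ℝ) ^ expo ℓ k
            * Real.exp (-(K * Real.log (Fintype.card F) ^ ((2 : ℝ) / 3))) ≤ (C.card : ℝ)) ∧
    (∀ ε : ℝ, 0 < ε → ∃ q₀ : ℕ, ∀ (F : Type) [Fintype F], q₀ < Fintype.card F →
      ∃ C : Finset (Fin ℓ → F), IsIPP k C ∧
        (Fintype.card F : ℝ) ^ (expo ℓ k - ε) < (C.card : ℝ)) := by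
  intro ℓ k hℓ hk
  have h1 : ∃ K : ℝ, 0 < K ∧ ∀ (F : Type) [Fintype F] [Nonempty F],
      ∃ C : Finset (Fin ℓ → F), IsIPP k C ∧
        (Fintype.card F : ℝ) ^ expo ℓ k
            * Real.exp (-(K * Real.log (Fintype.card F) ^ ((2 : ℝ) / 3))) ≤ (C.card : ℝ) := by
    obtain ⟨K, hK, hq⟩ := Pool.Agent.IPP.quant ℓ k hℓ hk
    refine ⟨K, hK, ?_⟩
    intro F _ _
    have hc : 1 ≤ Fintype.card F := Fintype.card_pos
    obtain ⟨C, hC1, hC2⟩ := hq (Fintype.card F) hc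
    let e : F ≃ Fin (Fintype.card F) := Fintype.equivFin F
    let φ : (Fin ℓ → Fin (Fintype.card F)) ≃ (Fin ℓ → F) := Equiv.piCongrRight fun _ => e.symm
    have hφ : ∀ x i, φ x i = e.symm (x i) := fun _ _ => rfl
    have hφs : ∀ x i, φ.symm x i = e (x i) := fun _ _ => rfl
    refine ⟨C.map φ.toEmbedding, ?_, ?_⟩
    · intro d hd
      have key : ∀ X : Finset (Fin ℓ → F), IsParent (C.map φ.toEmbedding) k d X →
          X.map φ.symm.toEmbedding ⊆ C ∧ (X.map φ.symm.toEmbedding).card ≤ k ∧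
            ∀ i, ∃ y ∈ X.map φ.symm.toEmbedding, y i = (φ.symm d) i := by
        intro X hX
        obtain ⟨hXC, _, hXk, hXd⟩ := hX
        refine ⟨?_, by rwa [Finset.card_map], ?_⟩
        · intro y hy
          obtain ⟨x, hx, rfl⟩ := Finset.mem_map.mp hy
          obtain ⟨c, hc, rfl⟩ := Finset.mem_map.mp (hXC hx)
          simpa using hc
        · intro i
          obtain ⟨x, hx, hxi⟩ := hXd i
          refine ⟨φ.symm x, Finset.mem_map.mpr ⟨x, hx, rfl⟩, ?_⟩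
          rw [hφs, hφs, hxi]
      obtain ⟨X0, hX0⟩ := hd
      obtain ⟨k1, k2, k3⟩ := key X0 hX0
      obtain ⟨c, _, hcX⟩ := hC1 (φ.symm d) ⟨_, k1, k2, k3⟩
      refine ⟨φ c, ?_⟩
      intro X hX
      obtain ⟨j1, j2, j3⟩ := key X hX
      have h2 := hcX _ j1 j2 j3
      obtain ⟨x, hx, hxc⟩ := Finset.mem_map.mp h2
      have h3 : φ c = x := by
        rw [← hxc]
        simp
      rw [h3]
      exact hx
    · rw [Finset.card_map]
      refine le_trans (le_of_eq ?_) hC2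
      have hcpos : (0 : ℝ) < Fintype.card F := by exact_mod_cast hc
      rw [expo_eq ℓ k hℓ hk, Real.rpow_def_of_pos hcpos, ← Real.exp_add]
      congr 1
      ring
  refine ⟨h1, ?_⟩
  obtain ⟨K, hK, hF⟩ := h1
  intro ε hε
  -- exp (ε log q) > exp (K (log q)^(2/3)) for q large
  have hlim : Filter.Tendsto (fun n : ℕ => Real.log (n : ℝ) ^ ((1 : ℝ) / 3)) Filter.atTop
      Filter.atTop :=
    (tendsto_rpow_atTop (by norm_num)).comp (Real.tendsto_log_atTop.comp tendsto_natCast_atTop_atTop)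
  have hev := hlim.eventually_gt_atTop (K / ε)
  rw [Filter.eventually_atTop] at hev
  obtain ⟨n0, hn0⟩ := hev
  refine ⟨max n0 1, ?_⟩
  intro F _ hcard
  have hn : n0 ≤ Fintype.card F := (le_max_left _ _).trans hcard.le
  have hc1 : 1 < Fintype.card F := lt_of_le_of_lt (le_max_right _ _) hcard
  have : Nonempty F := Fintype.card_pos_iff.mp (by omega)
  obtain ⟨C, hC, hb⟩ := hF F
  refine ⟨C, hC, lt_of_lt_of_le ?_ hb⟩
  have hq1 : (1 : ℝ) < Fintype.card F := by exact_mod_cast hc1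
  have hcpos : (0 : ℝ) < Fintype.card F := by linarith
  set lam : ℝ := Real.log (Fintype.card F) with hlam
  have hlam0 : 0 < lam := Real.log_pos hq1
  have h3 := hn0 _ hn
  rw [← hlam, div_lt_iff₀ hε] at h3
  have h4 : K * lam ^ ((2 : ℝ) / 3) < ε * lam := by
    have e1 : lam = lam ^ ((1 : ℝ) / 3) * lam ^ ((2 : ℝ) / 3) := by
      rw [← Real.rpow_add hlam0]
      norm_num
    have hp : 0 < lam ^ ((2 : ℝ) / 3) := Real.rpow_pos_of_pos hlam0 _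
    calc K * lam ^ ((2 : ℝ) / 3) < (lam ^ ((1 : ℝ) / 3) * ε) * lam ^ ((2 : ℝ) / 3) :=
          mul_lt_mul_of_pos_right h3 hp
      _ = ε * (lam ^ ((1 : ℝ) / 3) * lam ^ ((2 : ℝ) / 3)) := by ring
      _ = ε * lam := by rw [← e1]
  rw [Real.rpow_def_of_pos hcpos, Real.rpow_def_of_pos hcpos, ← Real.exp_add]
  apply Real.exp_lt_exp.mpr
  rw [← hlam]
  linarith

end Pool.Agent.Results.MP_21b6c8_co.SharpOrder
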